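import Pool.Agent.Y105.RS.Stm

/-!
Flipping the bit of a letter (job RS-FLIP).
-/

set_option autoImplicit false

open Finset Equiv

namespace Pool.Agent.Y681.RS

open Pool.Agent.Y105.RS

variable {V : Type} [Fintype V] [DecidableEq V] {M : ℕ}

/-- the word with the bit number `j` flipped -/
def fl (j : Fin M) (w : Fin M → Lt V) : Fin M → Lt V := Function.update w j ((w j).1, !(w j).2)

omit [Fintype V] [DecidableEq V] in
lemma fl_self (j : Fin M) (w : Fin M → Lt V) : fl j w j = ((w j).1, !(w j).2) := by
  unfold fl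
  rw [Function.update_self]

omit [Fintype V] [DecidableEq V] in
lemma fl_ne {i j : Fin M} (h : i ≠ j) (w : Fin M → Lt V) : fl j w i = w i :=
  Function.update_of_ne h _ _

omit [Fintype V] [DecidableEq V] in
lemma fl_fst (j i : Fin M) (w : Fin M → Lt V) : (fl j w i).1 = (w i).1 := by
  by_cases h : i = j
  · subst h
    rw [fl_self]
  · rw [fl_ne h]

omit [Fintype V] [DecidableEq V] in
lemma fl_fl (j : Fin M) (w : Fin M → Lt V) : fl j (fl j w) = w := by
  funext i
  by_cases h : i = j
  · subst h
    rw [fl_self, fl_self]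
    simp
  · rw [fl_ne h, fl_ne h]

omit [Fintype V] in
lemma pre_fl (j : Fin M) (w : Fin M → Lt V) : pre (fl j w) j = pre w j := by
  unfold pre
  congr 1
  apply List.ext_getElem
  · simp
  · intro i h1 h2
    rw [List.getElem_take, List.getElem_take, List.getElem_ofFn, List.getElem_ofFn]
    have hi : i < (j : ℕ) := by
      rw [List.length_take] at h1
      omega
    congr 1
    apply fl_ne
    intro h
    have h3 := congrArg Fin.val h
    simp only at h3
    omega

/-- the product of the letters after the letter number `j` -/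
def po (w : Fin M → Lt V) (j : Fin M) : Perm V :=
  ((List.ofFn fun i => st (w i)).drop ((j : ℕ) + 1)).prod

omit [Fintype V] in
lemma po_fl (j : Fin M) (w : Fin M → Lt V) : po (fl j w) j = po w j := by
  unfold po
  congr 1
  apply List.ext_getElem
  · simp
  · intro i h1 h2
    rw [List.getElem_drop, List.getElem_drop, List.getElem_ofFn, List.getElem_ofFn]
    congr 1
    apply fl_ne
    intro h
    have h3 := congrArg Fin.val h
    simp only at h3
    omega

omit [Fintype V] in
lemma wp_eq (w : Fin M → Lt V) (j : Fin M) : wp w = pre w j * (st (w j) * po w j) := by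
  unfold wp pre po
  have hlen : (j : ℕ) < (List.ofFn fun i => st (w i)).length := by
    rw [List.length_ofFn]
    exact j.2
  rw [← List.prod_take_mul_prod_drop (List.ofFn fun i => st (w i)) (j : ℕ),
    List.drop_eq_getElem_cons hlen, List.prod_cons, List.getElem_ofFn]

omit [Fintype V] in
lemma wp_fl (w : Fin M → Lt V) (j : Fin M) :
    wp (fl j w) = swap (la w j) (lb w j) * wp w := by
  rw [wp_eq (fl j w) j, wp_eq w j, pre_fl, po_fl, fl_self]
  unfold la lb
  obtain ⟨A, hA⟩ : ∃ A, A = pre w j := ⟨_, rfl⟩
  obtain ⟨B, hB⟩ : ∃ B, B = po w j := ⟨_, rfl⟩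
  rw [← hA, ← hB]
  have h1 : A * swap (w j).1.1 (w j).1.2 = swap (A (w j).1.1) (A (w j).1.2) * A :=
    Equiv.mul_swap_eq_swap_mul A _ _
  unfold st
  cases hb : (w j).2 with
  | true =>
    simp only [Bool.not_true, if_true]
    rw [if_neg (by simp), one_mul, ← mul_assoc A, h1, mul_assoc, ← mul_assoc _ _ (A * B),
      Equiv.swap_mul_self, one_mul]
  | false =>
    simp only [Bool.not_false, if_true]
    rw [if_neg (by simp), one_mul, ← mul_assoc, h1, mul_assoc]

/-- **RS-FLIP.** -/
theorem flip : S_FLIP := by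
  intro V _ _ p M j Φ
  unfold mean
  have hinv : Function.Involutive (fl (V := V) j) := fl_fl j
  rw [← Equiv.sum_comp hinv.toPerm]
  refine Finset.sum_congr rfl fun w _ => ?_
  show (∏ i, p (fl j w i).1.1 (fl j w i).1.2 / 2) *
    Φ (wp (fl j w)) (la (fl j w) j) (lb (fl j w) j) = _
  have h1 : la (fl j w) j = la w j := by
    unfold la
    rw [pre_fl, fl_fst]
  have h2 : lb (fl j w) j = lb w j := by
    unfold lb
    rw [pre_fl, fl_fst]
  rw [h1, h2, wp_fl]
  congr 1
  refine Finset.prod_congr rfl fun i _ => ?_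
  rw [fl_fst]

end Pool.Agent.Y681.RS
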